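import Pool.Agent.W523.Main

/-!
# The coarse moduli space `M_g` contains an affine line for every `g ≥ 2`

The curves `y² = x^(2g+2) + a x + b` with `a = α s`, `b = β t` and discriminant
`s^(2g+2) + t^(2g+1) = 1` form a family of smooth projective curves of genus `g` over an affine
curve `B`. The group of pairs of roots of unity acts on `B` with quotient the affine line with
coordinate `S = s^(2g+2)`, and the action lifts to isomorphisms of the fibres of the family. So the
classifying map from `B` to the coarse space descends to the affine line. It is not constant, as
`y² = x^(2g+2) + β` and `y² = x^(2g+2) + α x` are not isomorphic.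
-/

namespace Pool.Agent.Results.MP_2eb777_ag.AffineLine

open Pool.Agent.W523

/-- Answer to Q2: for every `g ≥ 2` (so for every `g ≥ 3`) the coarse moduli space of smooth
projective curves of genus `g` over `ℂ` contains an affine line. -/
theorem result (g : ℕ) (hg : 2 ≤ g) (𝓜 : CoarseModuliSpace g) : ContainsA1 𝓜.sM :=
  contains hg 𝓜

end Pool.Agent.Results.MP_2eb777_ag.AffineLine
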